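import Mathlib
import Pool.Agent.Q277.Ram51k7
import Pool.Agent.Q277.Ram51k7Fac
import Pool.Agent.Q277.RamTwo

/-!
# Sign and integrality of the normalised `(51k+7)` sums with ratio `-1728`
-/

namespace Pool.Agent.Results.MP_681c11_nt.SignIntegrality

open Finset Q277.Ram51k7 Q277.FacTools Q277.RamTwo Q266.PInt

/-- the rational number `a_n` of the problem -/
def a (n : ℕ) : ℚ :=
  1 / ((n : ℚ) * (2 * n + 1) * ((2 * n).choose n : ℚ)) *
    ∑ k ∈ range n, (-1728) ^ (n - 1 - k) * (51 * (k : ℚ) + 7) * ((2 * k).choose k : ℚ) ^ 2 *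
      ((3 * k).choose k : ℚ)

theorem F_zero (j : ℕ) : F j 0
    = (51 * (j : ℚ) + 7) * ((2 * j).choose j : ℚ) ^ 2 * ((3 * j).choose j : ℚ) := by
  unfold F
  rw [choose_two, choose_three]
  simp only [Nat.sub_zero, add_zero, pow_zero, Nat.cast_zero, mul_zero]
  rw [f1 (2 * j)]
  have a1 := fne (3 * j)
  have a2 := fne (2 * j)
  have a3 := fne j
  generalize ((3 * j).factorial : ℚ) = x1 at *
  generalize ((2 * j).factorial : ℚ) = x2 at *
  generalize (j.factorial : ℚ) = x3 at *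
  push_cast
  simp only [Nat.factorial_zero, Nat.cast_one]
  have b1 : 2 * (j : ℚ) + 1 ≠ 0 := by positivity
  field_simp
  ring

theorem sum_F (n : ℕ) : ∑ k ∈ range n, (-1728) ^ (n - 1 - k) * (51 * (k : ℚ) + 7) *
      ((2 * k).choose k : ℚ) ^ 2 * ((3 * k).choose k : ℚ) = ∑ k ∈ range n, G n k := by
  rw [wz_sum F G (-1728) (fun n k hk => pair n k hk) corner n]
  refine sum_congr rfl fun j _ => ?_
  rw [F_zero]; ring

theorem a_eq (n : ℕ) (ρ σ : ℕ → ℕ → ℕ)
    (hρ : ∀ r k, ((3 * k + 2).factorial * r.factorial ^ 2 * (r + 2 * k + 1).factorial *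
        (2 * r + k).factorial * (2 * r + 2 * k + 3).factorial) * ρ r k
      = (3 * r + 3 * k + 3).factorial * k.factorial * (2 * r).factorial *
        (2 * r + 4 * k + 2).factorial)
    (hσ : ∀ r k, ((3 * k + 1).factorial * r.factorial ^ 2 * (r + 2 * k + 1).factorial *
        (2 * r + k + 1).factorial * (2 * r + 2 * k + 3).factorial) * σ r k
      = (3 * r + 3 * k + 3).factorial * k.factorial * (2 * r).factorial *
        (2 * r + 4 * k + 2).factorial) :
    6 * a n = ∑ k ∈ range n, (-27) ^ k * (3 * (ρ (n - k - 1) k : ℚ) + 2 * (σ (n - k - 1) k : ℚ)) := by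
  unfold a
  rw [sum_F, ← mul_assoc, mul_sum]
  refine sum_congr rfl fun k hk => ?_
  have hk' := mem_range.1 hk
  obtain ⟨r, hr⟩ : ∃ r, n = r + k + 1 := ⟨n - k - 1, by omega⟩
  have e : (((3 * k + 2).factorial : ℚ) * (r.factorial : ℚ) ^ 2 * ((r + 2 * k + 1).factorial : ℚ) *
        ((2 * r + k).factorial : ℚ) * ((2 * r + 2 * k + 3).factorial : ℚ)) * (ρ r k : ℚ)
      = ((3 * r + 3 * k + 3).factorial : ℚ) * (k.factorial : ℚ) * ((2 * r).factorial : ℚ) *
        ((2 * r + 4 * k + 2).factorial : ℚ) := by exact_mod_cast hρ r k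
  have e' : (((3 * k + 1).factorial : ℚ) * (r.factorial : ℚ) ^ 2 * ((r + 2 * k + 1).factorial : ℚ) *
        ((2 * r + k + 1).factorial : ℚ) * ((2 * r + 2 * k + 3).factorial : ℚ)) * (σ r k : ℚ)
      = ((3 * r + 3 * k + 3).factorial : ℚ) * (k.factorial : ℚ) * ((2 * r).factorial : ℚ) *
        ((2 * r + 4 * k + 2).factorial : ℚ) := by exact_mod_cast hσ r k
  rw [show n - k - 1 = r by omega]
  unfold G
  rw [show n - k - 1 = r by omega, choose_two]
  rw [show 3 * r + 3 * k + 3 = 3 * n by omega, show 2 * r + 4 * k + 2 = 2 * (n + k) by omega,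
    show r + 2 * k + 1 = n + k by omega, show 2 * r + 2 * k + 3 = 2 * n + 1 by omega,
    f1 (2 * n)] at e e'
  rw [f2 (3 * k)] at e
  rw [f1 (3 * k), f1 (2 * r + k)] at e'
  rw [show 2 * n - k - 1 = 2 * r + k + 1 by omega, f2 (3 * k), f1 (2 * r + k)]
  have hn' : (n : ℚ) = r + k + 1 := by rw [hr]; push_cast; ring
  have hnn : (n : ℚ) ≠ 0 := by exact_mod_cast (by omega : n ≠ 0)
  have b1 : 2 * (n : ℚ) + 1 ≠ 0 := by positivity
  have a1 := fne (3 * n)
  have a2 := fne (2 * r)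
  have a3 := fne (2 * (n + k))
  have a4 := fne (2 * r + k)
  have a5 := fne (n + k)
  have a6 := fne r
  have a7 := fne n
  have a8 := fne (2 * n)
  have a9 := fne (3 * k)
  have a10 := fne k
  generalize ((3 * n).factorial : ℚ) = x1 at *
  generalize ((2 * r).factorial : ℚ) = x2 at *
  generalize ((2 * (n + k)).factorial : ℚ) = x3 at *
  generalize ((2 * r + k).factorial : ℚ) = x4 at *
  generalize ((n + k).factorial : ℚ) = x5 at *
  generalize (r.factorial : ℚ) = x6 at *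
  generalize (n.factorial : ℚ) = x7 at *
  generalize ((2 * n).factorial : ℚ) = x8 at *
  generalize ((3 * k).factorial : ℚ) = x9 at *
  generalize (k.factorial : ℚ) = x10 at *
  generalize (ρ r k : ℚ) = y1 at *
  generalize (σ r k : ℚ) = y2 at *
  push_cast at e e' ⊢
  have b2 : 3 * (k : ℚ) + 1 ≠ 0 := by positivity
  have b3 : 3 * (k : ℚ) + 2 ≠ 0 := by positivity
  have b4 : 2 * (r : ℚ) + k + 1 ≠ 0 := by positivity
  have hρ1 : y1 = x1 * x10 * x2 * x3 /
      ((3 * k + 2) * (3 * k + 1) * x9 * x6 ^ 2 * x5 * x4 * ((2 * n + 1) * x8)) := by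
    rw [eq_div_iff (by positivity)]
    linear_combination e
  have hσ1 : y2 = x1 * x10 * x2 * x3 /
      ((3 * k + 1) * x9 * x6 ^ 2 * x5 * ((2 * r + k + 1) * x4) * ((2 * n + 1) * x8)) := by
    rw [eq_div_iff (by positivity)]
    linear_combination e'
  rw [hρ1, hσ1]
  field_simp
  rw [hn']
  ring

theorem a_two (m : ℕ) (hm : 1 ≤ m) : PI 2 (a (m + 1)) := by
  have hp := Nat.prime_two
  obtain ⟨u, hu⟩ := even_c m hm
  have h := sum_PI 2 (by norm_num) (-432) (fun k => (51 * k + 7) * (2 * k).choose k *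
    (3 * k).choose k) m ⟨(51 * m + 7) * u * (3 * m).choose m, by
      show (51 * m + 7) * (2 * m).choose m * (3 * m).choose m = _
      rw [hu]; ring⟩
  have e : a (m + 1) = ((∑ k ∈ range (m + 1), ((2 * (2 : ℕ) * (-432) : ℤ) : ℚ) ^ (m - k) *
      (((2 * k).choose k : ℚ) * (((51 * k + 7) * (2 * k).choose k * (3 * k).choose k : ℕ) : ℚ))) /
      ((2 : ℕ) * ((2 * m).choose m : ℚ))) * (1 / (2 * (m : ℚ) + 1)) *
        (1 / (2 * ((m + 1 : ℕ) : ℚ) + 1)) := by
    have hs : (∑ k ∈ range (m + 1), ((2 * (2 : ℕ) * (-432) : ℤ) : ℚ) ^ (m - k) *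
        (((2 * k).choose k : ℚ) * (((51 * k + 7) * (2 * k).choose k * (3 * k).choose k : ℕ) : ℚ)))
        = ∑ k ∈ range (m + 1), (-1728) ^ (m + 1 - 1 - k) * (51 * (k : ℚ) + 7) *
          ((2 * k).choose k : ℚ) ^ 2 * ((3 * k).choose k : ℚ) := by
      refine sum_congr rfl fun k _ => ?_
      rw [show m + 1 - 1 - k = m - k by omega]
      push_cast
      ring
    rw [hs]
    unfold a
    generalize (∑ k ∈ range (m + 1), (-1728) ^ (m + 1 - 1 - k) * (51 * (k : ℚ) + 7) *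
      ((2 * k).choose k : ℚ) ^ 2 * ((3 * k).choose k : ℚ)) = x
    have h2 := cstep m
    have c1 := cne m
    have c2 := cne (m + 1)
    generalize ((2 * (m + 1)).choose (m + 1) : ℚ) = y at *
    generalize ((2 * m).choose m : ℚ) = z at *
    push_cast
    have b1 : (m : ℚ) + 1 ≠ 0 := by positivity
    have b2 : 2 * (m : ℚ) + 1 ≠ 0 := by positivity
    have b3 : 2 * ((m : ℚ) + 1) + 1 ≠ 0 := by positivity
    have hy : y = 2 * (2 * m + 1) * z / (m + 1) := by
      rw [eq_div_iff b1]; linear_combination h2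
    rw [hy]
    field_simp
  rw [e]
  exact (h.mul hp (odd_inv m)).mul hp (odd_inv (m + 1))

/-- the alternating sum is positive -/
theorem sum_pos (n : ℕ) : 0 < ∑ k ∈ range (n + 1), (1728 : ℚ) ^ (n - k) *
    ((-1) ^ k * ((51 * (k : ℚ) + 7) * ((2 * k).choose k : ℚ) ^ 2 * ((3 * k).choose k : ℚ))) := by
  refine alt_pos (fun k => (51 * (k : ℚ) + 7) * ((2 * k).choose k : ℚ) ^ 2 * ((3 * k).choose k : ℚ))
    (fun n => ∑ k ∈ range n, (1728 : ℚ) ^ (n - 1 - k) *
    ((-1) ^ k * ((51 * (k : ℚ) + 7) * ((2 * k).choose k : ℚ) ^ 2 * ((3 * k).choose k : ℚ)))) 1728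
    (by norm_num) (fun k => ?_) (fun k => ?_) (by simp) (fun n => ?_) n
  · have h1 : 0 < (2 * k).choose k := Nat.choose_pos (by omega)
    have h2 : 0 < (3 * k).choose k := Nat.choose_pos (by omega)
    positivity
  · rw [choose_two, choose_two, choose_three, choose_three, show 2 * (k + 1) = 2 * k + 2 by ring,
      show 3 * (k + 1) = 3 * k + 3 by ring, f2 (2 * k), f3 (3 * k), f1 k]
    have a1 : (0 : ℚ) < ((3 * k).factorial : ℚ) := by positivity
    have a2 : (0 : ℚ) < ((2 * k).factorial : ℚ) := by positivity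
    have a3 : (0 : ℚ) < (k.factorial : ℚ) := by positivity
    generalize ((3 * k).factorial : ℚ) = x1 at *
    generalize ((2 * k).factorial : ℚ) = x2 at *
    generalize (k.factorial : ℚ) = x3 at *
    push_cast
    have hk : (0 : ℚ) ≤ k := by positivity
    generalize (k : ℚ) = t at *
    rw [← sub_pos]
    have e : 1728 * ((51 * t + 7) * (x2 / x3 ^ 2) ^ 2 * (x1 / (x3 * x2))) -
        (51 * (t + 1) + 7) * ((2 * t + 2) * (2 * t + 1) * x2 / ((t + 1) * x3) ^ 2) ^ 2 *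
          ((3 * t + 3) * (3 * t + 2) * (3 * t + 1) * x1 /
            ((t + 1) * x3 * ((2 * t + 2) * (2 * t + 1) * x2)))
        = (x1 * x2 / x3 ^ 5) * (1728 * (51 * t + 7) * (t + 1) ^ 3 -
          (51 * t + 58) * (6 * (2 * t + 1) * (3 * t + 1) * (3 * t + 2))) / (t + 1) ^ 3 := by
      have b1 : t + 1 ≠ 0 := by positivity
      have b2 : 2 * t + 1 ≠ 0 := by positivity
      have b3 : 2 * t + 2 ≠ 0 := by positivity
      field_simp
      ring
    rw [e]
    have h5 : 0 < 1728 * (51 * t + 7) * (t + 1) ^ 3 -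
          (51 * t + 58) * (6 * (2 * t + 1) * (3 * t + 1) * (3 * t + 2)) := by
      ring_nf
      positivity
    positivity
  · show ∑ k ∈ range (n + 1), _ = 1728 * ∑ k ∈ range n, _ + _
    rw [sum_range_succ, mul_sum]
    congr 1
    · refine sum_congr rfl fun k hk => ?_
      have := mem_range.1 hk
      rw [show n + 1 - 1 - k = (n - 1 - k) + 1 by omega, pow_succ]
      ring
    · rw [show n + 1 - 1 - n = 0 by omega, pow_zero, one_mul]

theorem a_pos (n : ℕ) : 0 < (-1) ^ n * a (n + 1) := by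
  have h := sum_pos n
  have e : (-1) ^ n * a (n + 1) = (1 / (((n + 1 : ℕ) : ℚ) * (2 * ((n + 1 : ℕ) : ℚ) + 1) *
      ((2 * (n + 1)).choose (n + 1) : ℚ))) * ∑ k ∈ range (n + 1), (1728 : ℚ) ^ (n - k) *
    ((-1) ^ k * ((51 * (k : ℚ) + 7) * ((2 * k).choose k : ℚ) ^ 2 * ((3 * k).choose k : ℚ))) := by
    unfold a
    rw [mul_left_comm]
    congr 1
    rw [mul_sum]
    refine sum_congr rfl fun k hk => ?_
    obtain ⟨j, rfl⟩ : ∃ j, n = k + j := ⟨n - k, by have := mem_range.1 hk; omega⟩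
    rw [show k + j + 1 - 1 - k = j by omega, show k + j - k = j by omega,
      show (-1728 : ℚ) = (-1) * 1728 by norm_num, mul_pow, pow_add]
    have h1 : ((-1 : ℚ) ^ j) * (-1) ^ j = 1 := by rw [← mul_pow]; norm_num
    linear_combination ((-1) ^ k * 1728 ^ j * (51 * (k : ℚ) + 7) * ((2 * k).choose k : ℚ) ^ 2 *
      ((3 * k).choose k : ℚ)) * h1
  rw [e]
  refine mul_pos (one_div_pos.2 ?_) h
  have h1 : 0 < (2 * (n + 1)).choose (n + 1) := Nat.choose_pos (by omega)
  positivity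

theorem result (n : ℕ) (hn : 2 ≤ n) :
    ((∀ m : ℕ, 2 * n + 1 ≠ 3 ^ m) → ∃ z : ℤ, 0 < z ∧ (-1) ^ (n - 1) * a n = z) ∧
    ((∃ m : ℕ, 2 * n + 1 = 3 ^ m) → ∃ z : ℤ, 3 * a n = z ∧ ¬ (3 : ℤ) ∣ z) := by
  choose ρ hρ using exists_RA
  choose σ hσ using exists_RB
  have ha := a_eq n ρ σ hρ hσ
  obtain ⟨m, rfl⟩ : ∃ m, n = m + 1 := ⟨n - 1, by omega⟩
  have h2 := a_two m (by omega)
  rw [sum_range_succ'] at ha
  simp only [pow_zero, one_mul, Nat.sub_zero, Nat.add_sub_cancel] at ha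
  obtain ⟨w, hw⟩ : ∃ w : ℤ, ∑ k ∈ range m, (-27 : ℚ) ^ (k + 1) *
      (3 * (ρ (m + 1 - (k + 1) - 1) (k + 1) : ℚ) + 2 * (σ (m + 1 - (k + 1) - 1) (k + 1) : ℚ))
      = 3 * w := by
    refine ⟨∑ k ∈ range m, (-9) * ((-27) ^ k *
      (3 * (ρ (m + 1 - (k + 1) - 1) (k + 1) : ℤ) + 2 * (σ (m + 1 - (k + 1) - 1) (k + 1) : ℤ))), ?_⟩
    rw [Int.cast_sum, mul_sum]
    refine sum_congr rfl fun k _ => ?_
    generalize ρ (m + 1 - (k + 1) - 1) (k + 1) = x
    generalize σ (m + 1 - (k + 1) - 1) (k + 1) = y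
    rw [pow_succ]
    push_cast
    ring
  rw [hw] at ha
  obtain ⟨y, hy, hz⟩ := finish (a (m + 1)) (3 * w + (3 * (ρ m 0 : ℤ) + 2 * (σ m 0 : ℤ)))
    (by rw [ha]; push_cast; ring) h2
  obtain ⟨ρ0, hρ0⟩ := Q277.Ram5k1.exists_R m 0
  simp only [mul_zero, add_zero] at hρ0
  have hρ1 : (m.factorial ^ 2 * (m + 1).factorial * (2 * m + 3).factorial) * ρ0
      = (3 * m + 3).factorial * (2 * m).factorial := by
    have hne : (2 * m + 2).factorial ≠ 0 := Nat.factorial_ne_zero _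
    refine mul_left_cancel₀ hne ?_
    linear_combination hρ0
  have hσ0 : σ m 0 = 2 * (m + 1) * ρ0 := by
    have h := hσ m 0
    simp only [mul_zero, add_zero, zero_add, Nat.factorial_zero, Nat.factorial_one, mul_one,
      one_mul] at h
    have hne : m.factorial ^ 2 * (m + 1).factorial * (2 * m + 1).factorial *
        (2 * m + 3).factorial ≠ 0 := by positivity
    refine mul_left_cancel₀ hne ?_
    rw [h, Nat.factorial_succ (2 * m + 1)]
    linear_combination ((2 * m + 2) * (2 * m + 1).factorial) * hρ1.symm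
  rw [hσ0] at hz
  push_cast at hz
  constructor
  · intro hm
    obtain ⟨d, hd⟩ := Q277.Ram5k1.three_dvd m ρ0 (fun j hj => hm j (by omega)) hρ1
    have h3 : (3 : ℤ) ∣ 2 * y := ⟨w + ρ m 0 + 4 * (m + 1) * d, by rw [← hz, hd]; push_cast; ring⟩
    obtain ⟨u, hu⟩ : (3 : ℤ) ∣ y := by omega
    have hau : a (m + 1) = u := by
      rw [hu] at hy
      push_cast at hy
      linarith
    have hpos := a_pos m
    rw [hau] at hpos
    refine ⟨(-1) ^ m * u, by exact_mod_cast hpos, ?_⟩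
    rw [hau, Nat.add_sub_cancel]
    push_cast
    ring
  · rintro ⟨j, hj⟩
    have h3 := Q277.Ram5k1.not_three_dvd m ρ0 j (by omega) hρ1
    refine ⟨y, hy, fun h => ?_⟩
    have hj0 : j ≠ 0 := by rintro rfl; omega
    obtain ⟨i, rfl⟩ : ∃ i, j = i + 1 := ⟨j - 1, by omega⟩
    rw [pow_succ] at hj
    have h4 : (3 : ℤ) ∣ 4 * ((m : ℤ) + 1) * ρ0 := by
      obtain ⟨t, ht⟩ := h
      exact ⟨2 * t - w - ρ m 0, by rw [ht] at hz; linear_combination hz⟩
    rcases Int.prime_three.dvd_mul.1 h4 with h5 | h5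
    · omega
    · exact h3 (by exact_mod_cast h5)

end Pool.Agent.Results.MP_681c11_nt.SignIntegrality
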